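import Pool.Agent.W186.AI.Spec

set_option autoImplicit false

namespace Pool.Agent.W728.AI.HGD

open Complex Filter Topology Metric Set Pool.Agent.W186.AI
open scoped Real

noncomputable def E (c t : ℂ) : ℂ := (g (c + I * t) - g (c - I * t)) / (2 * I) - t * deriv g c

theorem isOpenHP : IsOpen {s : ℂ | 1 < s.re} := isOpen_lt continuous_const Complex.continuous_re

theorem re_pt (c u : ℂ) (hc : 3 ≤ c.re) (hu : ‖u‖ < 1) : 2 ≤ (c + u).re := by
  have h1 : |u.re| ≤ ‖u‖ := Complex.abs_re_le_norm u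
  have h2 : -1 < u.re := by
    have := neg_abs_le u.re
    linarith
  rw [Complex.add_re]
  linarith

theorem norm_It (t : ℂ) : ‖I * t‖ = ‖t‖ := by rw [norm_mul, Complex.norm_I, one_mul]

theorem gdiffAt (hg : DifferentiableOn ℂ g {s : ℂ | 1 < s.re}) (s : ℂ) (hs : 1 < s.re) :
    DifferentiableAt ℂ g s :=
  (hg s hs).differentiableAt (isOpenHP.mem_nhds hs)

theorem dgdiffAt (hg : DifferentiableOn ℂ g {s : ℂ | 1 < s.re}) (s : ℂ) (hs : 1 < s.re) :
    DifferentiableAt ℂ (deriv g) s :=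
  ((hg.deriv isOpenHP) s hs).differentiableAt (isOpenHP.mem_nhds hs)

theorem dbound (hg : DifferentiableOn ℂ g {s : ℂ | 1 < s.re}) (c : ℂ) (hc : 3 ≤ c.re) (M : ℝ)
    (hM : ∀ u : ℂ, ‖u‖ < 1 → ‖deriv (deriv g) (c + u)‖ ≤ M) (u : ℂ) (hu : ‖u‖ < 1) :
    ‖deriv g (c + u) - deriv g c‖ ≤ M := by
  have hconv : Convex ℝ (ball c 1) := convex_ball c 1
  have h0 : (0 : ℝ) ≤ M := le_trans (norm_nonneg _) (hM 0 (by simp))
  have h := hconv.norm_image_sub_le_of_norm_deriv_le (𝕜 := ℂ) (f := deriv g) (C := M) (x := c) (y := c + u)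
    (fun x hx => by
      have hx' : ‖x - c‖ < 1 := by rwa [mem_ball, dist_eq_norm] at hx
      have := re_pt c (x - c) hc hx'
      apply dgdiffAt hg
      have e : c + (x - c) = x := by ring
      rw [e] at this
      linarith)
    (fun x hx => by
      have hx' : ‖x - c‖ < 1 := by rwa [mem_ball, dist_eq_norm] at hx
      have := hM (x - c) hx'
      have e : c + (x - c) = x := by ring
      rwa [e] at this)
    (mem_ball_self one_pos) (by rw [mem_ball, dist_eq_norm]; simpa using hu)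
  have e : c + u - c = u := by ring
  rw [e] at h
  refine h.trans ?_
  nlinarith [norm_nonneg u]

theorem E_deriv (hg : DifferentiableOn ℂ g {s : ℂ | 1 < s.re}) (c : ℂ) (hc : 3 ≤ c.re) (t : ℂ) (ht : ‖t‖ < 1) :
    HasDerivAt (E c) (((deriv g (c + I * t) - deriv g c) + (deriv g (c - I * t) - deriv g c)) / 2) t := by
  have h1 : DifferentiableAt ℂ g (c + I * t) := by
    apply gdiffAt hg
    have := re_pt c (I * t) hc (by rwa [norm_It])
    linarith
  have h2 : DifferentiableAt ℂ g (c - I * t) := by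
    apply gdiffAt hg
    have := re_pt c (-(I * t)) hc (by rwa [norm_neg, norm_It])
    rw [← sub_eq_add_neg] at this
    linarith
  have a1 : HasDerivAt (fun t : ℂ => c + I * t) I t := by
    simpa using ((hasDerivAt_id t).const_mul I).const_add c
  have a2 : HasDerivAt (fun t : ℂ => c - I * t) (-I) t := by
    simpa using ((hasDerivAt_id t).const_mul I).const_sub c
  have b1 : HasDerivAt (fun t : ℂ => g (c + I * t)) (deriv g (c + I * t) * I) t :=
    HasDerivAt.comp (h₂ := g) t h1.hasDerivAt a1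
  have b2 : HasDerivAt (fun t : ℂ => g (c - I * t)) (deriv g (c - I * t) * (-I)) t :=
    HasDerivAt.comp (h₂ := g) t h2.hasDerivAt a2
  have b3 : HasDerivAt (fun t : ℂ => t * deriv g c) (deriv g c) t := by
    simpa using (hasDerivAt_id t).mul_const (deriv g c)
  have b4 := ((b1.sub b2).div_const (2 * I)).sub b3
  have e : (deriv g (c + I * t) * I - deriv g (c - I * t) * (-I)) / (2 * I) - deriv g c =
      ((deriv g (c + I * t) - deriv g c) + (deriv g (c - I * t) - deriv g c)) / 2 := by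
    have : (I : ℂ) ≠ 0 := I_ne_zero
    field_simp
    ring
  rw [e] at b4
  exact b4

theorem E_lip (hg : DifferentiableOn ℂ g {s : ℂ | 1 < s.re}) (c : ℂ) (hc : 3 ≤ c.re) (M : ℝ)
    (hM : ∀ u : ℂ, ‖u‖ < 1 → ‖deriv (deriv g) (c + u)‖ ≤ M) : 
    ∀ t ∈ ball (0 : ℂ) 1, ∀ u ∈ ball (0 : ℂ) 1, ‖E c t - E c u‖ ≤ M * ‖t - u‖ := by
  intro t ht u hu
  refine (convex_ball (0 : ℂ) 1).norm_image_sub_le_of_norm_hasDerivWithin_le (𝕜 := ℂ)
    (f := E c) (f' := fun t => ((deriv g (c + I * t) - deriv g c) + (deriv g (c - I * t) - deriv g c)) / 2)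
    (fun x hx => (E_deriv hg c hc x (by rwa [mem_ball_zero_iff] at hx)).hasDerivWithinAt) ?_ hu ht
  intro x hx
  rw [mem_ball_zero_iff] at hx
  have h1 := dbound hg c hc M hM (I * x) (by rwa [norm_It])
  have h2 := dbound hg c hc M hM (-(I * x)) (by rwa [norm_neg, norm_It])
  rw [← sub_eq_add_neg] at h2
  have h3 := norm_add_le (deriv g (c + I * x) - deriv g c) (deriv g (c - I * x) - deriv g c)
  rw [norm_div]
  have e2 : ‖(2 : ℂ)‖ = 2 := by norm_num
  rw [e2]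
  linarith

theorem E_zero (c : ℂ) : E c 0 = 0 := by simp [E]

theorem E_bd (hg : DifferentiableOn ℂ g {s : ℂ | 1 < s.re}) (c : ℂ) (hc : 3 ≤ c.re) (M : ℝ)
    (hM : ∀ u : ℂ, ‖u‖ < 1 → ‖deriv (deriv g) (c + u)‖ ≤ M) : 
    ∀ t ∈ ball (0 : ℂ) 1, ‖E c t‖ ≤ M := by
  intro t ht
  have h0 : (0 : ℝ) ≤ M := le_trans (norm_nonneg _) (hM 0 (by simp))
  have h := E_lip hg c hc M hM t ht 0 (mem_ball_self one_pos)
  rw [E_zero, sub_zero, sub_zero] at h
  rw [mem_ball_zero_iff] at ht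
  refine h.trans ?_
  nlinarith [norm_nonneg t]

theorem Hh_eq (a t : ℂ) : Hh a t = E (1 / 2 + a) t + (Z (1 / 2 + a + I * t) - Z (1 / 2 + a - I * t)) / (2 * I) := by
  unfold Hh GG ell E La
  ring

theorem norm_ph (Y : ℝ) (p : Nat.Primes) : ‖ph Y p‖ = 1 := by
  unfold ph
  have hp : (0 : ℝ) < ((p : ℕ) : ℝ) := by exact_mod_cast p.2.pos
  have := Complex.norm_natCast_cpow_of_pos p.2.pos (-(I * (Y : ℂ)))
  rw [this]
  simp

theorem main (hg : S_GAM) (h2 : S_GD2) (hz : S_ZET) (hs : S_ZS) (hS : S_SGD) : S_HGD := by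
  obtain ⟨hg1, -, -⟩ := hg
  obtain ⟨C0, hC0⟩ := h2
  obtain ⟨hz1, -, -, -⟩ := hz
  have hC0n : 0 ≤ C0 := le_trans (norm_nonneg _) (hC0 2 (by norm_num)).1
  have hHS : ∀ (x Y : ℝ) (t : ℂ), 10 ≤ x → ‖t‖ < 1 →
      Hh ((x : ℂ) + I * (Y : ℂ)) t = E (1 / 2 + ((x : ℂ) + I * (Y : ℂ))) t - S (1 / 2 + x) (ph Y) t := by
    intro x Y t hx ht
    rw [Hh_eq, hs x Y t hx ht]
    ring
  have hre : ∀ a : ℂ, 10 ≤ a.re → 3 ≤ ((1 : ℂ) / 2 + a).re := by
    intro a ha
    have : ((1 : ℂ) / 2 + a).re = 1 / 2 + a.re := by simp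
    rw [this]; linarith
  have hM0 : ∀ a : ℂ, 10 ≤ a.re → ∀ u : ℂ, ‖u‖ < 1 → ‖deriv (deriv g) (1 / 2 + a + u)‖ ≤ C0 := by
    intro a ha u hu
    exact (hC0 _ (re_pt _ u (hre a ha) hu)).1
  refine ⟨2 * C0 + 1, by linarith, ?_, ?_, ?_⟩
  · intro a ha
    have ea : a = ((a.re : ℝ) : ℂ) + I * ((a.im : ℝ) : ℂ) := by
      rw [mul_comm]; exact (Complex.re_add_im a).symm
    have hGood := (hS (1 / 2 + a.re) (by linarith)).1 (ph a.im) (fun p => (norm_ph a.im p).le)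
    obtain ⟨⟨g1, g2⟩, -⟩ := hGood
    have hH : ∀ t : ℂ, ‖t‖ < 1 → Hh a t = E (1 / 2 + a) t - S (1 / 2 + a.re) (ph a.im) t := by
      intro t ht
      have := hHS a.re a.im t ha ht
      rwa [← ea] at this
    constructor
    · intro t ht
      rw [hH t (by rwa [mem_ball_zero_iff] at ht)]
      have e1 := E_bd hg1 (1 / 2 + a) (hre a ha) C0 (hM0 a ha) t ht
      have e2 := g1 t ht
      have e3 := norm_sub_le (E (1 / 2 + a) t) (S (1 / 2 + a.re) (ph a.im) t)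
      linarith
    · intro t ht u hu
      rw [hH t (by rwa [mem_ball_zero_iff] at ht), hH u (by rwa [mem_ball_zero_iff] at hu)]
      have e1 := E_lip hg1 (1 / 2 + a) (hre a ha) C0 (hM0 a ha) t ht u hu
      have e2 := g2 t ht u hu
      have e3 := norm_sub_le (E (1 / 2 + a) t - E (1 / 2 + a) u)
        (S (1 / 2 + a.re) (ph a.im) t - S (1 / 2 + a.re) (ph a.im) u)
      have e4 : E (1 / 2 + a) t - S (1 / 2 + a.re) (ph a.im) t -
          (E (1 / 2 + a) u - S (1 / 2 + a.re) (ph a.im) u) =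
          E (1 / 2 + a) t - E (1 / 2 + a) u -
        (S (1 / 2 + a.re) (ph a.im) t - S (1 / 2 + a.re) (ph a.im) u) := by ring
      rw [e4]
      have e5 := mul_nonneg hC0n (norm_nonneg (t - u))
      nlinarith [norm_nonneg (t - u)]
  · have hell : DifferentiableOn ℂ ell {s : ℂ | 1 < s.re} := hg1.add hz1
    have hdom : ∀ q : ℂ × ℂ, q ∈ ({a : ℂ | 10 < a.re} ×ˢ ball (0 : ℂ) 1) →
        1 < ((1 : ℂ) / 2 + q.1 + I * q.2).re ∧ 1 < ((1 : ℂ) / 2 + q.1 - I * q.2).re ∧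
        1 < ((1 : ℂ) / 2 + q.1).re := by
      intro q hq
      have h1 : 10 < q.1.re := hq.1
      have h2' : ‖q.2‖ < 1 := by have := hq.2; rwa [mem_ball_zero_iff] at this
      have r1 := re_pt (1 / 2 + q.1) (I * q.2) (hre q.1 h1.le) (by rwa [norm_It])
      have r2 := re_pt (1 / 2 + q.1) (-(I * q.2)) (hre q.1 h1.le) (by rwa [norm_neg, norm_It])
      rw [← sub_eq_add_neg] at r2
      have r3 := hre q.1 h1.le
      exact ⟨by linarith, by linarith, by linarith⟩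
    have hd1 : DifferentiableOn ℂ (fun q : ℂ × ℂ => ell (1 / 2 + q.1 + I * q.2))
        ({a : ℂ | 10 < a.re} ×ˢ ball (0 : ℂ) 1) := by
      refine hell.comp (t := {s : ℂ | 1 < s.re}) (g := ell) (f := fun q : ℂ × ℂ => 1 / 2 + q.1 + I * q.2) ?_ ?_
      · exact (by fun_prop : Differentiable ℂ (fun q : ℂ × ℂ => 1 / 2 + q.1 + I * q.2)).differentiableOn
      · intro q hq; exact (hdom q hq).1
    have hd2 : DifferentiableOn ℂ (fun q : ℂ × ℂ => ell (1 / 2 + q.1 - I * q.2))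
        ({a : ℂ | 10 < a.re} ×ˢ ball (0 : ℂ) 1) := by
      refine hell.comp (t := {s : ℂ | 1 < s.re}) (g := ell) (f := fun q : ℂ × ℂ => 1 / 2 + q.1 - I * q.2) ?_ ?_
      · exact (by fun_prop : Differentiable ℂ (fun q : ℂ × ℂ => 1 / 2 + q.1 - I * q.2)).differentiableOn
      · intro q hq; exact (hdom q hq).2.1
    have hd3 : DifferentiableOn ℂ (fun q : ℂ × ℂ => deriv g (1 / 2 + q.1))
        ({a : ℂ | 10 < a.re} ×ˢ ball (0 : ℂ) 1) := by
      refine (hg1.deriv isOpenHP).comp (t := {s : ℂ | 1 < s.re}) (g := deriv g)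
        (f := fun q : ℂ × ℂ => 1 / 2 + q.1) ?_ ?_
      · exact (by fun_prop : Differentiable ℂ (fun q : ℂ × ℂ => 1 / 2 + q.1)).differentiableOn
      · intro q hq; exact (hdom q hq).2.2
    have hd4 : DifferentiableOn ℂ (fun q : ℂ × ℂ => q.2) ({a : ℂ | 10 < a.re} ×ˢ ball (0 : ℂ) 1) :=
      differentiable_snd.differentiableOn
    have hd7 : DifferentiableOn ℂ (fun q : ℂ × ℂ => q.2 * deriv g (1 / 2 + q.1))
        ({a : ℂ | 10 < a.re} ×ˢ ball (0 : ℂ) 1) := hd4.mul hd3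
    have hd6 : DifferentiableOn ℂ (fun q : ℂ × ℂ => (ell (1 / 2 + q.1 + I * q.2) - ell (1 / 2 + q.1 - I * q.2)) *
        (2 * I)⁻¹) ({a : ℂ | 10 < a.re} ×ˢ ball (0 : ℂ) 1) := (hd1.sub hd2).mul_const ((2 * I)⁻¹)
    have hd5 : DifferentiableOn ℂ (fun q : ℂ × ℂ => (ell (1 / 2 + q.1 + I * q.2) - ell (1 / 2 + q.1 - I * q.2)) *
        (2 * I)⁻¹ - q.2 * deriv g (1 / 2 + q.1)) ({a : ℂ | 10 < a.re} ×ˢ ball (0 : ℂ) 1) := hd6.sub hd7
    exact hd5
  · intro x Y hx hY t ht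
    rw [mem_ball_zero_iff] at ht
    rw [hHS x Y t hx ht]
    have e1 : E (1 / 2 + ((x : ℂ) + I * (Y : ℂ))) t - S (1 / 2 + x) (ph Y) t + S (1 / 2 + x) (ph Y) t =
        E (1 / 2 + ((x : ℂ) + I * (Y : ℂ))) t := by ring
    rw [e1]
    have hare : ((x : ℂ) + I * (Y : ℂ)).re = x := by simp
    have haim : ((1 : ℂ) / 2 + ((x : ℂ) + I * (Y : ℂ))).im = Y := by simp
    have ha : 10 ≤ ((x : ℂ) + I * (Y : ℂ)).re := by rw [hare]; exact hx
    have hY0 : 0 < Y := by linarith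
    have hb := E_bd hg1 (1 / 2 + ((x : ℂ) + I * (Y : ℂ))) (hre _ ha) (2 * C0 / Y) (by
      intro u hu
      have hr := re_pt _ u (hre _ ha) hu
      obtain ⟨k1, k2⟩ := hC0 _ hr
      rw [le_div_iff₀ hY0]
      rcases le_total Y 2 with hY2 | hY2
      · nlinarith [norm_nonneg (deriv (deriv g) (1 / 2 + ((x : ℂ) + I * (Y : ℂ)) + u))]
      · have him : (1 / 2 + ((x : ℂ) + I * (Y : ℂ)) + u).im = Y + u.im := by rw [Complex.add_im, haim]
        have hui : |u.im| ≤ ‖u‖ := Complex.abs_im_le_norm u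
        have h3 : Y / 2 ≤ |(1 / 2 + ((x : ℂ) + I * (Y : ℂ)) + u).im| := by
          rw [him]
          have := neg_abs_le u.im
          refine le_trans ?_ (le_abs_self _)
          linarith
        nlinarith [norm_nonneg (deriv (deriv g) (1 / 2 + ((x : ℂ) + I * (Y : ℂ)) + u))]) t
        (by rwa [mem_ball_zero_iff])
    refine hb.trans ?_
    apply div_le_div_of_nonneg_right _ hY0.le
    linarith

end Pool.Agent.W728.AI.HGD
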